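import Pool.Agent.K.MP_b2489f_co.C4

set_option autoImplicit false

namespace Pool.Agent.Results.MP_b2489f_co.Five

open Pool.Agent.P.MP_b2489f_co

theorem result :
    IsLeast {k | ∃ (D : Type) (_ : Finite D) (M : PlaneMap D), M.minFace = 5 ∧ M.polyNum = k} 3 :=
  Five.five

end Pool.Agent.Results.MP_b2489f_co.Five
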