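import Pool.Agent.K.MP_b2489f_co.C5

set_option autoImplicit false

namespace Pool.Agent.Results.MP_b2489f_co.LargeG

open Pool.Agent.P.MP_b2489f_co

theorem result (g : ℕ) (hg : 10 ^ 110 ≤ g) :
    IsLeast {k | ∃ (D : Type) (_ : Finite D) (M : PlaneMap D), M.minFace = g ∧ M.polyNum = k}
      ((3 * g - 1) / 4) :=
  main g hg

end Pool.Agent.Results.MP_b2489f_co.LargeG
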